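import Pool.Agent.H29.UDP.TLat

/-!
# MP_47c37b, row GD2: the infrared bound
-/

set_option autoImplicit false

open MeasureTheory Filter Topology
open scoped ENNReal InnerProductSpace

namespace Pool.Agent.H37.UDP

open Pool.Agent.H29.UDP

theorem one_add_le_cosh (t : ℝ) : 1 + t ^ 2 / 2 ≤ Real.cosh t := by
  have h1 : t = 2 * (t / 2) := by ring
  have h2 : Real.cosh t = 1 + 2 * Real.sinh (t / 2) ^ 2 := by
    conv_lhs => rw [h1, Real.cosh_two_mul, Real.cosh_sq]
    ring
  have h3 : (t / 2) ^ 2 ≤ Real.sinh (t / 2) ^ 2 := by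
    rw [sq_le_sq, Real.abs_sinh]
    exact Real.self_le_sinh_iff.2 (abs_nonneg _)
  rw [h2]
  linarith

theorem Lh_smul {d N : ℕ} [NeZero N] (J : (Fin d → ZMod N) → ℝ) (h : (Fin d → ZMod N) → ℝ)
    (η : ℝ) (x : Fin d → ZMod N) : Lh J (fun y => η * h y) x = η * Lh J h x := by
  unfold Lh
  rw [Finset.mul_sum]
  exact Finset.sum_congr rfl fun y _ => by ring

theorem Lh_const {d N : ℕ} [NeZero N] (J : (Fin d → ZMod N) → ℝ) (u : ℝ)
    (x : Fin d → ZMod N) : Lh J (fun _ => u) x = 0 := by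
  unfold Lh
  simp

theorem pf_GD2 (hGLW : T_GLW) (hTRP : T_TRP) (hTMX : T_TMX) : Pool.Agent.H29.UDP.T_GD2 := by
  intro d N _ hN J hJ g b hg h
  obtain ⟨X, hX⟩ : ∃ X : ((Fin d → ZMod N) → ℝ) → ℝ, X = fun φ => ∑ x, φ x * Lh J h x := ⟨_, rfl⟩
  obtain ⟨q, hq⟩ : ∃ q : ℝ, q = ∑ x, h x * Lh J h x := ⟨_, rfl⟩
  obtain ⟨-, hpos, hprob, hE, hint⟩ := hGLW (Fin d → ZMod N) (fun x y => J (x - y)) (fun _ => g)
    (fun _ => b) (fun _ => hg)
  obtain ⟨μ, hμ⟩ : ∃ μ : Measure ((Fin d → ZMod N) → ℝ), μ = tlaw J g b := ⟨_, rfl⟩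
  have hμ' : glaw (fun x y => J (x - y)) (fun _ => g) (fun _ => b) = μ := by
    rw [hμ, tlaw]
  rw [hμ'] at hprob hE hint
  have hmax : ∀ h', Zt J g b h' ≤ Zt J g b (fun _ => 0) := by
    refine hTMX d N hN (Zt J g b) (fun h' => ?_) (fun h' j c => hTRP d N hN J hJ g b hg h' j c) ?_
    · exact integral_nonneg fun φ => (Real.exp_pos _).le
    · intro u
      unfold Zt
      simp only [Lh_const, mul_zero, Finset.sum_const_zero, sub_zero]
  have hZ0 : Zt J g b (fun _ => 0) =
      ∫ φ, Real.exp (-gH (fun x y => J (x - y)) (fun _ => g) (fun _ => b) φ) := by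
    unfold Zt
    simp only [Lh_const, mul_zero, Finset.sum_const_zero, sub_zero]
  -- the exponential moments
  have hexp : ∀ η : ℝ, ∫ φ, Real.exp (-(η * X φ)) ∂μ ≤ Real.exp (η ^ 2 / 2 * q) := by
    intro η
    have h1 := hmax fun y => η * h y
    have h2 : Zt J g b (fun y => η * h y) = Real.exp (-(η ^ 2 / 2 * q)) *
        ∫ φ, Real.exp (-(η * X φ)) *
          Real.exp (-gH (fun x y => J (x - y)) (fun _ => g) (fun _ => b) φ) := by
      unfold Zt
      rw [← integral_const_mul]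
      refine integral_congr_ae (Eventually.of_forall fun φ => ?_)
      simp only
      rw [← Real.exp_add, ← Real.exp_add]
      congr 1
      have h3 : ∑ x, φ x * Lh J (fun y => η * h y) x = η * X φ := by
        rw [hX]
        simp only [Lh_smul]
        rw [Finset.mul_sum]
        exact Finset.sum_congr rfl fun x _ => by ring
      have h4 : ∑ x, η * h x * Lh J (fun y => η * h y) x = η ^ 2 * q := by
        rw [hq]
        simp only [Lh_smul]
        rw [Finset.mul_sum]
        exact Finset.sum_congr rfl fun x _ => by ring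
      rw [h3, h4]
      ring
    rw [h2, hZ0] at h1
    rw [hE, div_le_iff₀ hpos]
    calc ∫ φ, Real.exp (-(η * X φ)) *
          Real.exp (-gH (fun x y => J (x - y)) (fun _ => g) (fun _ => b) φ)
        = Real.exp (η ^ 2 / 2 * q) * (Real.exp (-(η ^ 2 / 2 * q)) *
          ∫ φ, Real.exp (-(η * X φ)) *
            Real.exp (-gH (fun x y => J (x - y)) (fun _ => g) (fun _ => b) φ)) := by
          rw [← mul_assoc, ← Real.exp_add, add_neg_cancel, Real.exp_zero, one_mul]
      _ ≤ _ := mul_le_mul_of_nonneg_left h1 (Real.exp_pos _).le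
  -- integrability
  have hXc : Continuous X := by
    rw [hX]
    exact continuous_finsetSum _ fun x _ => (continuous_apply x).mul continuous_const
  have hXb : ∀ η : ℝ, ∃ A : ℝ, 0 ≤ A ∧ ∀ φ, |η * X φ| ≤ A + ∑ x, φ x ^ 2 := by
    intro η
    refine ⟨∑ x, (η * Lh J h x) ^ 2, Finset.sum_nonneg fun x _ => sq_nonneg _, fun φ => ?_⟩
    rw [hX, Finset.mul_sum, ← Finset.sum_add_distrib]
    refine (Finset.abs_sum_le_sum_abs _ _).trans (Finset.sum_le_sum fun x _ => ?_)
    rw [abs_le]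
    constructor <;> nlinarith [sq_nonneg (η * Lh J h x - φ x), sq_nonneg (η * Lh J h x + φ x),
      sq_nonneg (η * Lh J h x), sq_nonneg (φ x)]
  have hsq : ∀ φ : (Fin d → ZMod N) → ℝ, 0 ≤ ∑ x, φ x ^ 2 := fun φ =>
    Finset.sum_nonneg fun x _ => sq_nonneg _
  have hI1 : ∀ η : ℝ, Integrable (fun φ => Real.exp (-(η * X φ))) μ := by
    intro η
    obtain ⟨A, hA, hb⟩ := hXb η
    refine hint _ (Real.exp A) (by fun_prop) fun φ => ?_
    rw [abs_of_pos (Real.exp_pos _), ← Real.exp_add]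
    refine Real.exp_le_exp.2 ?_
    have h1 := neg_abs_le (η * X φ)
    have h2 : 1 ≤ Real.exp A := Real.one_le_exp hA
    have h3 := hsq φ
    nlinarith [hb φ]
  have hI2 : Integrable (fun φ => X φ ^ 2) μ := by
    obtain ⟨A, hA, hb⟩ := hXb 1
    refine hint _ (2 * Real.exp A) (by fun_prop) fun φ => ?_
    rw [abs_of_nonneg (sq_nonneg _)]
    have h1 := one_add_le_cosh (X φ)
    have h2 : Real.cosh (X φ) ≤ Real.exp |X φ| := by
      rw [← Real.cosh_abs]
      rw [Real.cosh_eq]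
      have h3 : Real.exp (-|X φ|) ≤ Real.exp |X φ| :=
        Real.exp_le_exp.2 (by linarith [abs_nonneg (X φ)])
      linarith
    have h4 : Real.exp |X φ| ≤ Real.exp A * Real.exp (2 * Real.exp A * ∑ x, φ x ^ 2) := by
      rw [← Real.exp_add]
      refine Real.exp_le_exp.2 ?_
      have h5 := hb φ
      rw [one_mul] at h5
      have h6 : 1 ≤ Real.exp A := Real.one_le_exp hA
      have h7 := hsq φ
      nlinarith
    linarith
  -- the second moment
  have hkey : ∀ η : ℝ, 1 + η ^ 2 / 2 * ∫ φ, X φ ^ 2 ∂μ ≤ Real.exp (η ^ 2 / 2 * q) := by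
    intro η
    have h1 : ∫ φ, (1 + η ^ 2 / 2 * X φ ^ 2) ∂μ ≤
        ∫ φ, (Real.exp (-(η * X φ)) + Real.exp (-(-η * X φ))) / 2 ∂μ := by
      refine integral_mono ((integrable_const _).add (hI2.const_mul _))
        (((hI1 η).add (hI1 (-η))).div_const 2) fun φ => ?_
      have h2 := one_add_le_cosh (η * X φ)
      rw [Real.cosh_eq] at h2
      have h3 : -(-η * X φ) = η * X φ := by ring
      simp only
      rw [h3]
      nlinarith
    rw [integral_add (integrable_const _) (hI2.const_mul _), integral_const_mul, integral_div,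
      integral_add (hI1 η) (hI1 (-η))] at h1
    have h2 := hexp η
    have h3 := hexp (-η)
    rw [neg_sq] at h3
    simp only [integral_const, probReal_univ, smul_eq_mul, mul_one] at h1
    linarith
  have hfin : ∫ φ, X φ ^ 2 ∂μ ≤ q := by
    refine le_of_forall_pos_le_add fun ε hε => ?_
    obtain ⟨t, ht0, ht1, ht2⟩ : ∃ t : ℝ, 0 < t ∧ t * |q| ≤ 1 ∧ t * q ^ 2 ≤ ε := by
      refine ⟨min 1 ε / (1 + |q| + q ^ 2), by positivity, ?_, ?_⟩
      · rw [div_mul_eq_mul_div, div_le_one (by positivity)]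
        have h1 : min 1 ε ≤ 1 := min_le_left _ _
        nlinarith [abs_nonneg q, sq_nonneg q]
      · rw [div_mul_eq_mul_div, div_le_iff₀ (by positivity)]
        have h1 : min 1 ε ≤ ε := min_le_right _ _
        have h2 : 0 ≤ min 1 ε := by positivity
        nlinarith [abs_nonneg q, sq_nonneg q, mul_nonneg hε.le (abs_nonneg q)]
    have h1 := hkey (Real.sqrt (2 * t))
    rw [Real.sq_sqrt (by positivity)] at h1
    have h2 : 2 * t / 2 = t := by ring
    rw [h2] at h1
    have h3 : |Real.exp (t * q) - 1 - t * q| ≤ (t * q) ^ 2 :=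
      Real.abs_exp_sub_one_sub_id_le (by rw [abs_mul, abs_of_pos ht0]; exact ht1)
    have h4 := (abs_le.1 h3).2
    have h5 : t * ∫ φ, X φ ^ 2 ∂μ ≤ t * (q + ε) := by
      nlinarith
    exact le_of_mul_le_mul_left h5 ht0
  rw [← hμ, ← hq]
  rw [hX] at hfin
  exact hfin

end Pool.Agent.H37.UDP
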