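import Pool.Agent.H29.UDP.TLat
import Pool.Agent.H42.LD.Prep

/-!
# MP_47c37b, row GLW: the Gibbs measure
-/

set_option autoImplicit false

open MeasureTheory Filter Topology
open scoped ENNReal

namespace Pool.Agent.H37.UDP

open Pool.Agent.H29.UDP
open Pool.Agent.H42.LD (one_dim integrable_of_bound)

variable {ι : Type} [Fintype ι]

theorem gH_continuous (J : ι → ι → ℝ) (g b : ι → ℝ) : Continuous (gH J g b) := by
  unfold gH
  fun_prop

theorem gH_bound (J : ι → ι → ℝ) (g b : ι → ℝ) (hg : ∀ x, 0 < g x) (C : ℝ) (φ : ι → ℝ) :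
    C * ∑ x, φ x ^ 2 - gH J g b φ ≤
      ∑ x, ((C - b x + (∑ y, ∑ z, |J y z|) / 2 + 1) ^ 2 / (4 * g x) - φ x ^ 2) := by
  obtain ⟨M, hM⟩ : ∃ M : ℝ, M = ∑ y, ∑ z, |J y z| := ⟨_, rfl⟩
  rw [← hM]
  have h1 : ∑ x, ∑ y, J x y * φ x * φ y ≤ M * ∑ x, φ x ^ 2 := by
    rw [hM, Finset.sum_mul]
    refine Finset.sum_le_sum fun x _ => ?_
    rw [Finset.sum_mul]
    refine Finset.sum_le_sum fun y _ => ?_
    have h2 : φ x ^ 2 ≤ ∑ z, φ z ^ 2 :=
      Finset.single_le_sum (f := fun z => φ z ^ 2) (fun z _ => sq_nonneg _) (Finset.mem_univ x)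
    have h3 : φ y ^ 2 ≤ ∑ z, φ z ^ 2 :=
      Finset.single_le_sum (f := fun z => φ z ^ 2) (fun z _ => sq_nonneg _) (Finset.mem_univ y)
    have h4 : |φ x * φ y| ≤ ∑ z, φ z ^ 2 := by
      rw [abs_le]
      constructor <;> nlinarith [sq_nonneg (φ x - φ y), sq_nonneg (φ x + φ y)]
    rw [mul_assoc]
    refine (le_abs_self _).trans ?_
    rw [abs_mul]
    exact mul_le_mul_of_nonneg_left h4 (abs_nonneg _)
  have h5 : C * ∑ x, φ x ^ 2 - gH J g b φ ≤
      ∑ x, ((C - b x + M / 2) * φ x ^ 2 - g x * φ x ^ 4) := by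
    unfold gH
    have e1 : ∑ x, ((C - b x + M / 2) * φ x ^ 2 - g x * φ x ^ 4) =
        C * ∑ x, φ x ^ 2 - ∑ x, (g x * φ x ^ 4 + b x * φ x ^ 2) +
          1 / 2 * (M * ∑ x, φ x ^ 2) := by
      rw [Finset.mul_sum, Finset.mul_sum, Finset.mul_sum, ← Finset.sum_sub_distrib,
        ← Finset.sum_add_distrib]
      refine Finset.sum_congr rfl fun x _ => ?_
      ring
    rw [e1]
    linarith
  refine h5.trans (Finset.sum_le_sum fun x _ => ?_)
  exact one_dim (g x) (C - b x + M / 2) (φ x) (hg x)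

theorem glw_integrable (J : ι → ι → ℝ) (g b : ι → ℝ) (hg : ∀ x, 0 < g x) (C : ℝ) :
    Integrable (fun φ : ι → ℝ => Real.exp (C * ∑ x, φ x ^ 2 - gH J g b φ)) := by
  apply integrable_of_bound _ _ _ (gH_bound J g b hg C)
  have := gH_continuous J g b
  fun_prop

theorem pf_GLW : Pool.Agent.H29.UDP.T_GLW := by
  intro ι _ J g b hg
  have hHc := gH_continuous J g b
  have hint := glw_integrable J g b hg
  have h0 : Integrable (fun φ : ι → ℝ => Real.exp (-gH J g b φ)) := by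
    have := hint 0
    simpa using this
  have hZ : 0 < ∫ φ : ι → ℝ, Real.exp (-gH J g b φ) := integral_exp_pos h0
  obtain ⟨Z, hZd⟩ : ∃ Z : ℝ, Z = ∫ φ : ι → ℝ, Real.exp (-gH J g b φ) := ⟨_, rfl⟩
  rw [← hZd] at hZ ⊢
  have hL : ∫⁻ φ : ι → ℝ, ENNReal.ofReal (Real.exp (-gH J g b φ)) = ENNReal.ofReal Z := by
    rw [hZd]
    exact (ofReal_integral_eq_lintegral_ofReal h0
      (Eventually.of_forall fun φ => (Real.exp_pos _).le)).symm
  have hlaw : glaw J g b = (ENNReal.ofReal Z)⁻¹ •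
      volume.withDensity (fun φ : ι → ℝ => ENNReal.ofReal (Real.exp (-gH J g b φ))) := by
    unfold glaw
    rw [hL]
  have hZ0 : ENNReal.ofReal Z ≠ 0 := by
    rw [Ne, ENNReal.ofReal_eq_zero, not_le]
    exact hZ
  have hmeas : Measurable (fun φ : ι → ℝ => ENNReal.ofReal (Real.exp (-gH J g b φ))) := by
    fun_prop
  have hlt : ∀ᵐ φ : ι → ℝ, ENNReal.ofReal (Real.exp (-gH J g b φ)) < ∞ :=
    Eventually.of_forall fun φ => ENNReal.ofReal_lt_top
  have hint' : ∀ F : (ι → ℝ) → ℝ,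
      ∫ φ, F φ ∂(glaw J g b) = (∫ φ, F φ * Real.exp (-gH J g b φ)) / Z := by
    intro F
    rw [hlaw, integral_smul_measure, integral_withDensity_eq_integral_toReal_smul hmeas hlt,
      ENNReal.toReal_inv, ENNReal.toReal_ofReal hZ.le, smul_eq_mul, mul_comm, div_eq_mul_inv]
    congr 1
    refine integral_congr_ae (Eventually.of_forall fun φ => ?_)
    show (ENNReal.ofReal (Real.exp (-gH J g b φ))).toReal • F φ = F φ * Real.exp (-gH J g b φ)
    rw [ENNReal.toReal_ofReal (Real.exp_pos _).le, smul_eq_mul, mul_comm]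
  refine ⟨hint, hZ, ⟨?_⟩, hint', ?_⟩
  · rw [hlaw, Measure.smul_apply, withDensity_apply _ MeasurableSet.univ,
      Measure.restrict_univ, hL, smul_eq_mul, ENNReal.inv_mul_cancel hZ0 ENNReal.ofReal_ne_top]
  · intro F C hF hFb
    rw [hlaw]
    apply Integrable.smul_measure _ (ENNReal.inv_ne_top.2 hZ0)
    rw [integrable_withDensity_iff_integrable_smul' hmeas hlt]
    refine ((hint C).const_mul C).mono' ?_ (Eventually.of_forall fun φ => ?_)
    · have : Continuous (fun φ : ι → ℝ =>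
          (ENNReal.ofReal (Real.exp (-gH J g b φ))).toReal • F φ) := by
        have e1 : (fun φ : ι → ℝ => (ENNReal.ofReal (Real.exp (-gH J g b φ))).toReal • F φ) =
            fun φ => Real.exp (-gH J g b φ) * F φ := by
          funext φ
          rw [ENNReal.toReal_ofReal (Real.exp_pos _).le, smul_eq_mul]
        rw [e1]
        fun_prop
      exact this.aestronglyMeasurable
    · rw [ENNReal.toReal_ofReal (Real.exp_pos _).le, smul_eq_mul, Real.norm_eq_abs, abs_mul,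
        abs_of_pos (Real.exp_pos _)]
      have e1 : C * Real.exp (C * ∑ x, φ x ^ 2 - gH J g b φ) =
          Real.exp (-gH J g b φ) * (C * Real.exp (C * ∑ x, φ x ^ 2)) := by
        rw [sub_eq_add_neg, Real.exp_add]
        ring
      rw [e1]
      exact mul_le_mul_of_nonneg_left (hFb φ) (Real.exp_pos _).le

end Pool.Agent.H37.UDP
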