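import Pool.Agent.H29.UDP.TPro

/-!
# MP_47c37b, row MDF: differences of the moments of mollified functions
-/

set_option autoImplicit false

open MeasureTheory SchwartzMap Filter Topology
open scoped ENNReal ContDiff InnerProductSpace FourierTransform

namespace Pool.Agent.H37.UDP

open Pool.Agent.H29.UDP
open Pool.Agent.H43.DPC (V S SD moment trans rot dualMap IsMAO IsDC Diag Nn pm cell cut box sepBox
  Cond2 Cond3)

theorem pm_nonneg {d : ℕ} (m : ℕ) (f : S d) : 0 ≤ pm m f := apply_nonneg _ _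

theorem pm_add_le {d : ℕ} (m : ℕ) (f g : S d) : pm m (f + g) ≤ pm m f + pm m g :=
  map_add_le_add _ _ _

theorem pm_sub_rev {d : ℕ} (m : ℕ) (f g : S d) : pm m (f - g) = pm m (g - f) :=
  map_sub_rev _ _ _

theorem pm_mono {d : ℕ} {m m' : ℕ} (h : m ≤ m') (f : S d) : pm m f ≤ pm m' f := by
  unfold pm
  have h1 : Finset.Iic (m, m) ⊆ Finset.Iic (m', m') := Finset.Iic_subset_Iic.2 ⟨h, h⟩
  exact (Finset.sup_mono (f := schwartzSeminormFamily ℝ (V d) ℝ) h1) f

theorem pf_MDF (hHOL : Pool.Agent.H43.DPC.T_HOL) (hCTN : Pool.Agent.H43.DPC.T_CTN) :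
    Pool.Agent.H29.UDP.T_MDF := by
  intro d μ _ hμ ρ hρ n
  rcases Nat.eq_zero_or_pos n with hn | hn
  · subst hn
    refine ⟨0, 0, le_rfl, fun k l f h h' _ _ => ?_⟩
    rw [Subsingleton.elim h h']
    simp
  · obtain ⟨C₁, m₁, hC₁, h1⟩ := hCTN d μ hμ n hn
    obtain ⟨C₂, h2⟩ := hρ.rate m₁
    obtain ⟨hH, hM, -⟩ := hHOL d μ hμ
    obtain ⟨M, hM⟩ := hM n
    have hH := hH n hn
    obtain ⟨E, hE⟩ : ∃ E : ℝ, E = |C₂| := ⟨_, rfl⟩
    have hE0 : 0 ≤ E := by rw [hE]; exact abs_nonneg _
    obtain ⟨D, hD⟩ : ∃ D : ℝ, D = C₁ * (1 + 2 * E) := ⟨_, rfl⟩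
    have hD0 : 0 ≤ D := by rw [hD]; positivity
    refine ⟨n * D ^ n, m₁ + 1, by positivity, fun k l f h h' hh hh' => ?_⟩
    obtain ⟨P, hP⟩ : ∃ P : Fin n → ℝ, P = fun j => 1 + pm (m₁ + 1) (f j) := ⟨_, rfl⟩
    have hPf : ∀ j, pm (m₁ + 1) (f j) ≤ P j := fun j => by
      rw [hP]
      simp only
      linarith
    have hPp : ∀ j, 0 < P j := fun j => by
      rw [hP]
      have := pm_nonneg (m₁ + 1) (f j)
      simp only
      linarith
    obtain ⟨δ, hδ⟩ : ∃ δ : ℝ, δ = 1 / ((min k l : ℕ) + 1 : ℝ) := ⟨_, rfl⟩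
    have hδ0 : 0 < δ := by rw [hδ]; positivity
    have hδ1 : δ ≤ 1 := by
      rw [hδ, div_le_one (by positivity)]
      have : (0 : ℝ) ≤ (min k l : ℕ) := Nat.cast_nonneg _
      linarith
    have hk : 1 / ((k : ℝ) + 1) ≤ δ := by
      rw [hδ]
      refine one_div_le_one_div_of_le (by positivity) ?_
      have : ((min k l : ℕ) : ℝ) ≤ k := by exact_mod_cast min_le_left k l
      linarith
    have hl : 1 / ((l : ℝ) + 1) ≤ δ := by
      rw [hδ]
      refine one_div_le_one_div_of_le (by positivity) ?_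
      have : ((min k l : ℕ) : ℝ) ≤ l := by exact_mod_cast min_le_right k l
      linarith
    have hr : ∀ (k' : ℕ) (j : Fin n) (g : S d), 1 / ((k' : ℝ) + 1) ≤ δ →
        (∀ x, g x = ∫ y, f j y * ρ k' (x - y)) → pm m₁ (g - f j) ≤ E * P j * δ := by
      intro k' j g hk' hg
      refine (h2 k' (f j) g hg).trans ?_
      rw [div_eq_mul_one_div]
      have h3 : C₂ * pm (m₁ + 1) (f j) ≤ E * P j := by
        refine (mul_le_mul_of_nonneg_right (le_abs_self C₂) (pm_nonneg _ _)).trans ?_
        rw [← hE]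
        exact mul_le_mul_of_nonneg_left (hPf j) hE0
      refine (mul_le_mul_of_nonneg_right h3 (by positivity)).trans ?_
      exact mul_le_mul_of_nonneg_left hk' (mul_nonneg hE0 (hPp j).le)
    have hb : ∀ (j : Fin n) (g : S d), pm m₁ (g - f j) ≤ E * P j * δ →
        pm m₁ g ≤ (1 + 2 * E) * P j := by
      intro j g hg
      have h3 := pm_add_le m₁ (g - f j) (f j)
      rw [sub_add_cancel] at h3
      have h4 := (pm_mono (Nat.le_succ m₁) (f j)).trans (hPf j)
      have h5 : E * P j * δ ≤ E * P j := by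
        have := mul_nonneg hE0 (hPp j).le
        nlinarith
      have h6 := mul_nonneg hE0 (hPp j).le
      linarith
    have hd : ∀ j, pm m₁ (h j - h' j) ≤ (1 + 2 * E) * P j * δ := by
      intro j
      have h3 := hr k j (h j) hk (hh j)
      have h4 := hr l j (h' j) hl (hh' j)
      rw [pm_sub_rev] at h4
      have h5 := pm_add_le m₁ (h j - f j) (f j - h' j)
      rw [sub_add_sub_cancel] at h5
      have h6 : 0 ≤ P j * δ := mul_nonneg (hPp j).le hδ0.le
      nlinarith
    have hNn : ∀ (j : Fin n) (g : S d) (ε : ℝ), pm m₁ g ≤ (1 + 2 * E) * P j * ε →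
        Nn μ n g ≤ D * P j * ε := by
      intro j g ε hg
      refine (h1 g).trans ?_
      refine (mul_le_mul_of_nonneg_left hg hC₁).trans (le_of_eq ?_)
      rw [hD]
      ring
    have hterm : ∀ i : Fin n, |M (fun j => if j ∈ (Finset.univ : Finset (Fin n)) → j < i
        then h j else if i = j then h j - h' j else h' j)| ≤ D ^ n * (∏ j, P j) * δ := by
      intro i
      rw [hM]
      refine (hH _).trans ?_
      have h3 : ∀ j ∈ Finset.univ, Nn μ n (if j ∈ (Finset.univ : Finset (Fin n)) → j < i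
          then h j else if i = j then h j - h' j else h' j) ≤
          D * P j * (if j = i then δ else 1) := by
        intro j _
        by_cases hji : j < i
        · rw [if_pos fun _ => hji, if_neg hji.ne]
          refine hNn j _ 1 ?_
          rw [mul_one]
          exact hb j _ (hr k j (h j) hk (hh j))
        · rw [if_neg fun h4 => hji (h4 (Finset.mem_univ j))]
          by_cases hij : i = j
          · rw [if_pos hij, if_pos hij.symm]
            exact hNn j _ δ (hd j)
          · rw [if_neg hij, if_neg (Ne.symm hij)]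
            refine hNn j _ 1 ?_
            rw [mul_one]
            exact hb j _ (hr l j (h' j) hl (hh' j))
      refine (Finset.prod_le_prod (fun j _ => ENNReal.toReal_nonneg) h3).trans (le_of_eq ?_)
      rw [Finset.prod_mul_distrib, Finset.prod_mul_distrib, Finset.prod_const, Finset.card_univ,
        Fintype.card_fin, Finset.prod_ite_eq' Finset.univ i (fun _ => δ),
        if_pos (Finset.mem_univ i)]
    have hsum := M.map_sub_map_piecewise h h' Finset.univ
    rw [Finset.piecewise_univ, hM, hM] at hsum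
    rw [hsum]
    refine (Finset.abs_sum_le_sum_abs _ _).trans ?_
    refine (Finset.sum_le_sum fun i _ => hterm i).trans (le_of_eq ?_)
    rw [Finset.sum_const, Finset.card_univ, Fintype.card_fin, nsmul_eq_mul, hδ, hP]
    ring

end Pool.Agent.H37.UDP
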