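import Pool.Agent.H29.UDP.TPro

/-!
# MP_47c37b, row PMC: seminorms of cut off waves
-/

set_option autoImplicit false

open MeasureTheory SchwartzMap Filter Topology
open scoped ENNReal ContDiff InnerProductSpace FourierTransform

namespace Pool.Agent.H37.UDP

open Pool.Agent.H29.UDP
open Pool.Agent.H43.DPC (V S SD moment trans rot dualMap IsMAO IsDC Diag Nn pm cell cut box sepBox
  Cond2 Cond3)

theorem norm_wave {d : ℕ} (u : ℝ → ℝ) (hu : ContDiff ℝ ∞ u)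
    (hb : ∀ n x, |iteratedDeriv n u x| ≤ 1) (l : V d →L[ℝ] ℝ) (n : ℕ) (x : V d) :
    ‖iteratedFDeriv ℝ n (fun y => u (l y)) x‖ ≤ ‖l‖ ^ n := by
  have h1 : (fun y => u (l y)) = u ∘ l := rfl
  rw [h1, l.iteratedFDeriv_comp_right hu x (i := n) (by exact_mod_cast le_top)]
  refine (ContinuousMultilinearMap.norm_compContinuousLinearMap_le _ _).trans ?_
  rw [norm_iteratedFDeriv_eq_norm_iteratedDeriv, Finset.prod_const, Finset.card_univ,
    Fintype.card_fin]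
  have h2 := hb n (l x)
  rw [← Real.norm_eq_abs] at h2
  exact mul_le_of_le_one_left (by positivity) h2

theorem wave {d : ℕ} (χ : V d → ℝ) (hχ : ContDiff ℝ ∞ χ) (hc : HasCompactSupport χ)
    (u : ℝ → ℝ) (hu : ContDiff ℝ ∞ u) (hb : ∀ n x, |iteratedDeriv n u x| ≤ 1) (m : ℕ)
    (l : V d →L[ℝ] ℝ) : ∃ f : S d, (∀ x, f x = χ x * u (l x)) ∧
      pm m f ≤ 2 ^ m * pm m (hc.toSchwartzMap hχ) * (1 + ‖l‖) ^ m := by
  have hw : ContDiff ℝ ∞ (fun y => u (l y)) := hu.comp l.contDiff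
  have hs : ContDiff ℝ ∞ (fun x => χ x * u (l x)) := hχ.mul hw
  have hcs : HasCompactSupport (fun x => χ x * u (l x)) := hc.mul_right
  refine ⟨hcs.toSchwartzMap hs, fun x => rfl, ?_⟩
  obtain ⟨A, hA⟩ : ∃ A : ℝ, A = pm m (hc.toSchwartzMap hχ) := ⟨_, rfl⟩
  have hA0 : 0 ≤ A := by
    rw [hA]
    exact apply_nonneg _ _
  rw [← hA]
  have hl : 1 ≤ 1 + ‖l‖ := by linarith [norm_nonneg l]
  unfold pm
  refine Seminorm.finset_sup_apply_le (by positivity) ?_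
  rintro ⟨i, j⟩ hij
  rw [Finset.mem_Iic, Prod.mk_le_mk] at hij
  refine SchwartzMap.seminorm_le_bound ℝ i j _ (by positivity) fun x => ?_
  have h1 := norm_iteratedFDeriv_mul_le hχ hw x (n := j) (by exact_mod_cast le_top)
  have h2 : ∀ a ∈ Finset.range (j + 1), (j.choose a : ℝ) * ‖iteratedFDeriv ℝ a χ x‖ *
      ‖iteratedFDeriv ℝ (j - a) (fun y => u (l y)) x‖ ≤
      (j.choose a : ℝ) * (‖iteratedFDeriv ℝ a χ x‖ * (1 + ‖l‖) ^ m) := by
    intro a ha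
    rw [mul_assoc]
    refine mul_le_mul_of_nonneg_left (mul_le_mul_of_nonneg_left ?_ (norm_nonneg _))
      (Nat.cast_nonneg _)
    refine (norm_wave u hu hb l (j - a) x).trans ?_
    refine (pow_le_pow_left₀ (norm_nonneg l) (le_add_of_nonneg_left zero_le_one) _).trans ?_
    exact pow_le_pow_right₀ hl (by omega)
  have h3 : ∀ a ∈ Finset.range (j + 1), ‖x‖ ^ i * ((j.choose a : ℝ) *
      (‖iteratedFDeriv ℝ a χ x‖ * (1 + ‖l‖) ^ m)) ≤
      (j.choose a : ℝ) * (A * (1 + ‖l‖) ^ m) := by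
    intro a ha
    have ha' : a ≤ j := by
      rw [Finset.mem_range] at ha
      omega
    have h4 : ‖x‖ ^ i * ‖iteratedFDeriv ℝ a χ x‖ ≤ A := by
      have h5 := SchwartzMap.le_seminorm ℝ i a (hc.toSchwartzMap hχ) x
      refine h5.trans ?_
      rw [hA]
      unfold pm
      exact Seminorm.le_finset_sup_apply (p := schwartzSeminormFamily ℝ (V d) ℝ)
        (s := Finset.Iic (m, m)) (i := (i, a))
        (Finset.mem_Iic.2 (Prod.mk_le_mk.2 ⟨hij.1, ha'.trans hij.2⟩))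
    calc ‖x‖ ^ i * ((j.choose a : ℝ) * (‖iteratedFDeriv ℝ a χ x‖ * (1 + ‖l‖) ^ m))
        = (j.choose a : ℝ) * ((‖x‖ ^ i * ‖iteratedFDeriv ℝ a χ x‖) * (1 + ‖l‖) ^ m) := by ring
      _ ≤ _ := mul_le_mul_of_nonneg_left (mul_le_mul_of_nonneg_right h4 (by positivity))
          (Nat.cast_nonneg _)
  calc ‖x‖ ^ i * ‖iteratedFDeriv ℝ j (hcs.toSchwartzMap hs) x‖
      ≤ ‖x‖ ^ i * ∑ a ∈ Finset.range (j + 1), (j.choose a : ℝ) *
        (‖iteratedFDeriv ℝ a χ x‖ * (1 + ‖l‖) ^ m) :=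
        mul_le_mul_of_nonneg_left (h1.trans (Finset.sum_le_sum h2)) (by positivity)
    _ ≤ ∑ a ∈ Finset.range (j + 1), (j.choose a : ℝ) * (A * (1 + ‖l‖) ^ m) := by
        rw [Finset.mul_sum]
        exact Finset.sum_le_sum h3
    _ = 2 ^ j * (A * (1 + ‖l‖) ^ m) := by
        rw [← Finset.sum_mul]
        congr 1
        exact_mod_cast Nat.sum_range_choose j
    _ ≤ 2 ^ m * (A * (1 + ‖l‖) ^ m) :=
        mul_le_mul_of_nonneg_right (pow_le_pow_right₀ (by norm_num) hij.2) (by positivity)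
    _ = 2 ^ m * A * (1 + ‖l‖) ^ m := by ring

theorem pf_PMC : Pool.Agent.H29.UDP.T_PMC := by
  intro d χ hχ hc m
  refine ⟨2 ^ m * pm m (hc.toSchwartzMap hχ), mul_nonneg (by positivity) (apply_nonneg _ _),
    fun l => ?_⟩
  obtain ⟨f, hf1, hf2⟩ := wave χ hχ hc Real.cos Real.contDiff_cos
    Real.abs_iteratedDeriv_cos_le_one m l
  obtain ⟨g, hg1, hg2⟩ := wave χ hχ hc Real.sin Real.contDiff_sin
    Real.abs_iteratedDeriv_sin_le_one m l
  exact ⟨f, g, hf1, hg1, hf2, hg2⟩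

end Pool.Agent.H37.UDP
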