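import Pool.Agent.H29.UDP.TPro

/-!
# MP_47c37b, row PCK: the polars are compact
-/

set_option autoImplicit false

open MeasureTheory SchwartzMap Filter Topology
open scoped ENNReal ContDiff InnerProductSpace FourierTransform

namespace Pool.Agent.H37.UDP

open Pool.Agent.H29.UDP
open Pool.Agent.H43.DPC (V S SD moment trans rot dualMap IsMAO IsDC Diag Nn pm cell cut box sepBox
  Cond2 Cond3)

theorem isEmb (d : ℕ) : IsEmbedding (fun (T : SD d) (f : S d) => T f) :=
  WeakBilin.isEmbedding ContinuousLinearMap.coe_injective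

theorem pf_PCK : Pool.Agent.H29.UDP.T_PCK := by
  intro d M R
  rw [(isEmb d).isCompact_iff]
  have himg : (fun (T : SD d) (f : S d) => T f) ''
      {T : SD d | ∀ f : S d, |T f| ≤ R * pm M f} =
      (Set.univ.pi fun f : S d => Set.Icc (-(R * pm M f)) (R * pm M f)) ∩
        ({g : S d → ℝ | ∀ f f' : S d, g (f + f') = g f + g f'} ∩
          {g : S d → ℝ | ∀ (c : ℝ) (f : S d), g (c • f) = c * g f}) := by
    ext g
    constructor
    · rintro ⟨T, hT, rfl⟩
      exact ⟨fun f _ => abs_le.1 (hT f), fun f f' => map_add T f f',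
        fun c f => (map_smul T c f).trans (smul_eq_mul _ _)⟩
    · rintro ⟨hg, hadd, hsmul⟩
      have hb : ∀ f, |g f| ≤ R * pm M f := fun f => abs_le.2 (hg f trivial)
      have hcont : ∃ (s : Finset (ℕ × ℕ)) (C : ℝ), 0 ≤ C ∧ ∀ f : S d,
          ‖g f‖ ≤ C * s.sup (schwartzSeminormFamily ℝ (V d) ℝ) f := by
        refine ⟨Finset.Iic (M, M), |R|, abs_nonneg _, fun f => ?_⟩
        rw [Real.norm_eq_abs]
        refine (hb f).trans ?_
        exact mul_le_mul_of_nonneg_right (le_abs_self R) (apply_nonneg _ _)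
      let T : S d →L[ℝ] ℝ := SchwartzMap.mkCLMtoNormedSpace (𝕜 := ℝ) (σ := RingHom.id ℝ) g hadd
        (fun c f => by rw [hsmul]; rfl) hcont
      refine ⟨StrongDual.toWeakDual T, fun f => ?_, ?_⟩
      · show |g f| ≤ R * pm M f
        exact hb f
      · funext f
        rfl
  rw [himg]
  refine (isCompact_univ_pi fun f => isCompact_Icc).inter_right (IsClosed.inter ?_ ?_)
  · simp only [Set.ofPred_forall]
    refine isClosed_iInter fun f => isClosed_iInter fun f' => ?_
    exact isClosed_eq (by fun_prop) (by fun_prop)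
  · simp only [Set.ofPred_forall]
    refine isClosed_iInter fun c => isClosed_iInter fun f => ?_
    exact isClosed_eq (by fun_prop) (by fun_prop)

end Pool.Agent.H37.UDP
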